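import Pool.Agent.helper41.NU.A1
import Pool.Agent.helper41.NU.A2
import Pool.Agent.helper41.NU.A3
import Pool.Agent.helper70.NU.A7
import Pool.Agent.helper95.NU.A8
import Pool.Agent.helper69.NU.B1
import Pool.Agent.helper69.NU.B2
import Pool.Agent.helper51.NU.B3
import Pool.Agent.helper80.NU.B4
import Pool.Agent.helper95.NU.B4b

set_option autoImplicit false
set_option linter.all false

/-! Module B5: global identities. -/

open MeasureTheory Filter Topology Set
open scoped ContDiff Manifold Matrix ENNReal ComplexOrder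

noncomputable section

namespace Pool.Agent.helper63.NU

namespace B5

variable {n : ℕ} {M : Type*} [TopologicalSpace M] [ChartedSpace (E n) M]
  [IsManifold 𝓘(ℂ, E n) ω M]

/-- local linear operations -/
structure Loc (P : Ch n M → (E n → ℂ) → E n → ℂ) (k : ℕ) : Prop where
  den : ∀ t : Fam n M ℂ, IsSec k t → IsDen (fun e => P e (t e) : Fam n M ℂ)
  cont : ∀ t : Fam n M ℂ, IsSec k t → ∀ e ∈ atlas (E n) M, ContinuousOn (P e (t e)) e.target
  congr : ∀ e ∈ atlas (E n) M, ∀ (f g : E n → ℂ), ∀ y ∈ e.target, f =ᶠ[𝓝 y] g → P e f y = P e g y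
  sum : ∀ e ∈ atlas (E n) M, ∀ (N : ℕ) (f : Fin N → E n → ℂ),
    (∀ i, ContDiffOn ℝ ∞ (f i) e.target) → ∀ y ∈ e.target,
      P e (fun z => ∑ i, f i z) y = ∑ i, P e (f i) y

theorem Loc.zero {P : Ch n M → (E n → ℂ) → E n → ℂ} {k : ℕ} (hP : Loc P k) {e : Ch n M}
    (he : e ∈ atlas (E n) M) {f : E n → ℂ} {y : E n} (hy : y ∈ e.target)
    (h : f =ᶠ[𝓝 y] fun _ => 0) : P e f y = 0 := by
  have h1 := hP.sum e he 0 (fun i => i.elim0) (fun i => i.elim0) y hy
  simp only [Finset.univ_eq_empty, Finset.sum_empty] at h1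
  rw [hP.congr e he f _ y hy h]
  exact h1

variable [CompactSpace M] [T2Space M]
variable [MeasurableSpace M] [BorelSpace M] {μ : Measure M} {φ : Fam n M ℝ}

theorem chart_symm_mem {e : Ch n M} {y : E n} (hy : y ∈ e.target) : e.symm y ∈ e.source :=
  e.map_target hy

/-- the piece of the integral supported in a chart -/
theorem piece (hφ : IsWeight 1 φ) (hμ : IsDens μ φ) {k : ℕ}
    {P : Ch n M → (E n → ℂ) → E n → ℂ} (hP : Loc P k) {t : Fam n M ℂ} (ht : IsSec k t)
    {e : Ch n M} (he : e ∈ atlas (E n) M) {χ : M → ℝ} (hχ : Sm n fun x => ((χ x : ℝ) : ℂ))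
    (hsupp : tsupport χ ⊆ e.source) :
    ∫ x, fn φ (fun e' => P e' (fun y => ((χ (e'.symm y) : ℝ) : ℂ) * t e' y)) x ∂μ
      = ∫ y in e.target,
        P e (Set.indicator e.target fun y => ((χ (e.symm y) : ℝ) : ℂ) * t e y) y := by
  have hsec : IsSec k (fun e' y => ((χ (e'.symm y) : ℝ) : ℂ) * t e' y : Fam n M ℂ) :=
    IsSec.smul_fun ht hχ
  have hden := hP.den _ hsec
  -- vanishing off the chart
  have hvan : ∀ x ∉ e.source,
      fn φ (fun e' => P e' (fun y => ((χ (e'.symm y) : ℝ) : ℂ) * t e' y)) x = 0 := by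
    intro x hx
    have hx' : x ∉ tsupport χ := fun h => hx (hsupp h)
    unfold fn
    have h0 : P (chartAt (E n) x) (fun y => ((χ ((chartAt (E n) x).symm y) : ℝ) : ℂ) *
        t (chartAt (E n) x) y) (chartAt (E n) x x) = 0 := by
      apply hP.zero (chart_mem_atlas _ x) (mem_chart_target _ x)
      have h1 : ∀ᶠ z in 𝓝 x, χ z = 0 := by
        have := (isClosed_tsupport χ).isOpen_compl.mem_nhds hx'
        filter_upwards [this] with z hz
        exact image_eq_zero_of_notMem_tsupport hz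
      have hc : ContinuousAt (chartAt (E n) x).symm (chartAt (E n) x x) :=
        (chartAt (E n) x).continuousAt_symm (mem_chart_target _ x)
      have h2 : Tendsto (chartAt (E n) x).symm (𝓝 (chartAt (E n) x x)) (𝓝 x) := by
        have := hc.tendsto
        rwa [(chartAt (E n) x).left_inv (mem_chart_source _ x)] at this
      filter_upwards [h2.eventually h1] with z hz
      rw [hz]; simp
    beta_reduce
    rw [h0, zero_mul]
  rw [← setIntegral_eq_integral_of_forall_compl_eq_zero (s := e.source) hvan]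
  rw [setIntegral_fn hφ hμ hden he]
  apply setIntegral_congr_fun e.open_target.measurableSet
  intro y hy
  apply hP.congr e he _ _ y hy
  filter_upwards [e.open_target.mem_nhds hy] with z hz
  rw [Set.indicator_of_mem hz]

/-- local to global -/
theorem global (hφ : IsWeight 1 φ) (hμ : IsDens μ φ) {k : ℕ}
    {P Q : Ch n M → (E n → ℂ) → E n → ℂ} (hP : Loc P k) (hQ : Loc Q k)
    (hloc : ∀ e ∈ atlas (E n) M, ∀ u : E n → ℂ, ContDiff ℝ ∞ u → HasCompactSupport u →
      tsupport u ⊆ e.target → ∫ y in e.target, P e u y = ∫ y in e.target, Q e u y)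
    {t : Fam n M ℂ} (ht : IsSec k t) :
    ∫ x, fn φ (fun e => P e (t e)) x ∂μ = ∫ x, fn φ (fun e => Q e (t e)) x ∂μ := by
  obtain ⟨N, p, χ, hsm, -, hsum, hsupp⟩ :=
    exists_partition (n := n) (M := M) (fun _ => Set.univ) (fun _ => Filter.univ_mem)
  haveI : IsFiniteMeasure μ := isFiniteMeasure_of_isDens hφ hμ
  have key : ∀ R : Ch n M → (E n → ℂ) → E n → ℂ, Loc R k →
      ∫ x, fn φ (fun e => R e (t e)) x ∂μ = ∑ i, ∫ y in (chartAt (E n) (p i)).target,
        R (chartAt (E n) (p i)) (Set.indicator (chartAt (E n) (p i)).target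
          fun y => ((χ i ((chartAt (E n) (p i)).symm y) : ℝ) : ℂ) * t (chartAt (E n) (p i)) y) y := by
    intro R hR
    have h1 : ∀ x, fn φ (fun e => R e (t e)) x = ∑ i : Fin N,
        fn φ (fun e' => R e' (fun y => ((χ i (e'.symm y) : ℝ) : ℂ) * t e' y)) x := by
      intro x
      unfold fn
      rw [← Finset.sum_mul]
      congr 1
      rw [← hR.sum (chartAt (E n) x) (chart_mem_atlas _ x) N
        (fun i y => ((χ i ((chartAt (E n) x).symm y) : ℝ) : ℂ) * t (chartAt (E n) x) y) ?_ _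
        (mem_chart_target _ x)]
      · apply hR.congr _ (chart_mem_atlas _ x) _ _ _ (mem_chart_target _ x)
        refine Filter.Eventually.of_forall fun z => ?_
        show t (chartAt (E n) x) z = ∑ i, _
        rw [← Finset.sum_mul, ← Complex.ofReal_sum, hsum]
        simp
      · intro i
        exact (IsSec.smul_fun ht (hsm i)).smooth _ (chart_mem_atlas _ x)
    simp_rw [h1]
    rw [integral_finset_sum]
    · apply Finset.sum_congr rfl
      intro i _
      exact piece hφ hμ hR ht (chart_mem_atlas _ (p i)) (hsm i)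
        (fun x hx => (hsupp i hx).2)
    · intro i _
      have hsec := IsSec.smul_fun ht (hsm i)
      have hc : Continuous (fn φ (fun e' => R e' (fun y => ((χ i (e'.symm y) : ℝ) : ℂ) * t e' y))) :=
        continuous_fn hφ (hR.den _ hsec) (hR.cont _ hsec)
      exact hc.integrable_of_hasCompactSupport (HasCompactSupport.of_compactSpace _)
  rw [key P hP, key Q hQ]
  apply Finset.sum_congr rfl
  intro i _
  obtain ⟨c1, c2, c3⟩ := contDiff_cut ht (chart_mem_atlas _ (p i)) (hsm i)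
    (isClosed_tsupport (χ i)).isCompact (fun x hx => (hsupp i hx).2)
  exact hloc _ (chart_mem_atlas _ (p i)) _ c1 c2 c3

theorem rs_sum (Θ : Matrix (Fin n) (Fin n) ℂ) {N : ℕ} (α : Fin N → Fin n → ℂ) (j : Fin n) :
    rs Θ (fun k => ∑ i, α i k) j = ∑ i, rs Θ (α i) j := by
  unfold rs
  simp only [Finset.mul_sum]
  rw [Finset.sum_comm]

theorem dbv_sum {U : Set (E n)} (hU : IsOpen U) {N : ℕ} {f : Fin N → E n → ℂ}
    (hf : ∀ i, ContDiffOn ℝ ∞ (f i) U) {y : E n} (hy : y ∈ U) :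
    dbv (fun z => ∑ i, f i z) y = fun k => ∑ i, dbv (f i) y k := by
  funext k
  unfold dbv
  apply db_sum
  intro i _
  exact ((hf i).contDiffAt (hU.mem_nhds hy)).differentiableAt (by simp)

theorem cn_sum_right (Θ : Matrix (Fin n) (Fin n) ℂ) {N : ℕ} (α : Fin n → ℂ)
    (β : Fin N → Fin n → ℂ) :
    cn Θ α (fun k => ∑ i, β i k) = ∑ i, cn Θ α (β i) := by
  unfold cn
  simp only [map_sum, Finset.mul_sum]
  have h1 : ∀ k : Fin n, ∑ j : Fin n, ∑ i : Fin N, α k * Θ⁻¹ k j * (starRingEnd ℂ) (β i j)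
      = ∑ i : Fin N, ∑ j : Fin n, α k * Θ⁻¹ k j * (starRingEnd ℂ) (β i j) :=
    fun k => Finset.sum_comm
  simp_rw [h1]
  rw [Finset.sum_comm]

theorem dbv_congr {f g : E n → ℂ} {y : E n} (h : f =ᶠ[𝓝 y] g) : dbv f y = dbv g y := by
  funext k
  exact db_congr h k

theorem dbv_congr_ev {f g : E n → ℂ} {y : E n} (h : f =ᶠ[𝓝 y] g) :
    ∀ᶠ z in 𝓝 y, dbv f z = dbv g z := by
  filter_upwards [h.eventuallyEq_nhds] with z hz
  exact dbv_congr hz

theorem bx_congr {ψ : E n → ℝ} {f g : E n → ℂ} {y : E n} (h : f =ᶠ[𝓝 y] g) :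
    bx ψ f y = bx ψ g y := by
  unfold bx
  congr 1
  apply Finset.sum_congr rfl
  intro j _
  apply dz_congr
  filter_upwards [dbv_congr_ev h] with z hz
  rw [hz]

theorem qf_congr {ψ : E n → ℝ} {s f g : E n → ℂ} {y : E n} (h : f =ᶠ[𝓝 y] g) :
    qf ψ s f y = qf ψ s g y := by
  unfold qf
  apply Finset.sum_congr rfl
  intro j _
  apply Finset.sum_congr rfl
  intro k _
  congr 2
  apply db_congr
  filter_upwards [dbv_congr_ev h] with z hz
  rw [hz]

theorem contDiffOn_exp_neg {U : Set (E n)} {ψ : E n → ℝ} (hψ : ContDiffOn ℝ ∞ ψ U) :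
    ContDiffOn ℝ ∞ (fun z => (Real.exp (-ψ z) : ℂ)) U := by
  have h : ContDiffOn ℝ ∞ (fun z => Real.exp (-ψ z)) U := hψ.neg.exp
  exact Complex.ofRealCLM.contDiff.comp_contDiffOn h

theorem bx_sum {U : Set (E n)} (hU : IsOpen U) {ψ : E n → ℝ} (hψ : ContDiffOn ℝ ∞ ψ U)
    (hp : ∀ y ∈ U, (lev ψ y).PosDef) {N : ℕ} {f : Fin N → E n → ℂ}
    (hf : ∀ i, ContDiffOn ℝ ∞ (f i) U) {y : E n} (hy : y ∈ U) :
    bx ψ (fun z => ∑ i, f i z) y = ∑ i, bx ψ (f i) y := by
  unfold bx
  rw [← Finset.mul_sum]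
  congr 1
  rw [Finset.sum_comm]
  apply Finset.sum_congr rfl
  intro j _
  have h1 : (fun z => (Real.exp (-ψ z) : ℂ) * rs (lev ψ z) (dbv (fun z => ∑ i, f i z) z) j)
      =ᶠ[𝓝 y] fun z => ∑ i, (Real.exp (-ψ z) : ℂ) * rs (lev ψ z) (dbv (f i) z) j := by
    filter_upwards [hU.mem_nhds hy] with z hz
    rw [dbv_sum hU hf hz, rs_sum, Finset.mul_sum]
  rw [dz_congr h1, dz_sum]
  intro i _
  have h2 : ContDiffOn ℝ ∞ (fun z => (Real.exp (-ψ z) : ℂ) * rs (lev ψ z) (dbv (f i) z) j) U :=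
    (contDiffOn_exp_neg hψ).mul (contDiffOn_rs hU hψ hp (hf i) j)
  exact (h2.contDiffAt (hU.mem_nhds hy)).differentiableAt (by simp)

theorem qf_sum {U : Set (E n)} (hU : IsOpen U) {ψ : E n → ℝ} (hψ : ContDiffOn ℝ ∞ ψ U)
    (hp : ∀ y ∈ U, (lev ψ y).PosDef) (s : E n → ℂ) {N : ℕ} {f : Fin N → E n → ℂ}
    (hf : ∀ i, ContDiffOn ℝ ∞ (f i) U) {y : E n} (hy : y ∈ U) :
    qf ψ s (fun z => ∑ i, f i z) y = ∑ i, qf ψ s (f i) y := by
  unfold qf
  have h0 : ∀ j k : Fin n, db j (fun z => rs (lev ψ z) (dbv (fun z => ∑ i, f i z) z) k) y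
      = ∑ i, db j (fun z => rs (lev ψ z) (dbv (f i) z) k) y := by
    intro j k
    have h1 : (fun z => rs (lev ψ z) (dbv (fun z => ∑ i, f i z) z) k)
        =ᶠ[𝓝 y] fun z => ∑ i, rs (lev ψ z) (dbv (f i) z) k := by
      filter_upwards [hU.mem_nhds hy] with z hz
      rw [dbv_sum hU hf hz, rs_sum]
    rw [db_congr h1, db_sum]
    intro i _
    exact ((contDiffOn_rs hU hψ hp (hf i) k).contDiffAt (hU.mem_nhds hy)).differentiableAt (by simp)
  simp_rw [h0, map_sum, Finset.mul_sum]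
  have h1 : ∀ j : Fin n, ∑ k : Fin n, ∑ i : Fin N,
      db k (fun z => rs (lev ψ z) (dbv s z) j) y *
        (starRingEnd ℂ) (db j (fun z => rs (lev ψ z) (dbv (f i) z) k) y)
      = ∑ i : Fin N, ∑ k : Fin n, db k (fun z => rs (lev ψ z) (dbv s z) j) y *
        (starRingEnd ℂ) (db j (fun z => rs (lev ψ z) (dbv (f i) z) k) y) :=
    fun j => Finset.sum_comm
  simp_rw [h1]
  rw [Finset.sum_comm]

theorem continuousOn_conj {X : Type*} [TopologicalSpace X] {f : X → ℂ} {U : Set X}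
    (hf : ContinuousOn f U) : ContinuousOn (fun x => (starRingEnd ℂ) (f x)) U :=
  Complex.continuous_conj.comp_continuousOn hf

theorem continuousOn_cn {U : Set (E n)} (hU : IsOpen U) {ψ : E n → ℝ} (hψ : ContDiffOn ℝ ∞ ψ U)
    (hp : ∀ y ∈ U, (lev ψ y).PosDef) {f g : E n → ℂ} (hf : ContDiffOn ℝ ∞ f U)
    (hg : ContDiffOn ℝ ∞ g U) :
    ContinuousOn (fun y => cn (lev ψ y) (dbv f y) (dbv g y)) U := by
  unfold cn dbv
  apply continuousOn_finset_sum
  intro k _
  apply continuousOn_finset_sum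
  intro j _
  exact (((contDiffOn_db hU hf k).continuousOn).mul
    ((contDiffOn_lev_inv hU hψ hp k j).continuousOn)).mul
    (continuousOn_conj (contDiffOn_db hU hg j).continuousOn)

theorem continuousOn_qf {U : Set (E n)} (hU : IsOpen U) {ψ : E n → ℝ} (hψ : ContDiffOn ℝ ∞ ψ U)
    (hp : ∀ y ∈ U, (lev ψ y).PosDef) {f g : E n → ℂ} (hf : ContDiffOn ℝ ∞ f U)
    (hg : ContDiffOn ℝ ∞ g U) :
    ContinuousOn (fun y => qf ψ f g y) U := by
  unfold qf
  apply continuousOn_finset_sum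
  intro j _
  apply continuousOn_finset_sum
  intro k _
  exact ((contDiffOn_db hU (contDiffOn_rs hU hψ hp hf j) k).continuousOn).mul
    (continuousOn_conj (contDiffOn_db hU (contDiffOn_rs hU hψ hp hg k) j).continuousOn)

theorem loc_P1 {k : ℕ} {ψ : Fam n M ℝ} (hψ : IsPos (k + 1) ψ) {s : Fam n M ℂ}
    (hs : IsSec k s) :
    Loc (M := M) (fun e f y => bx (ψ e) (s e) y * (starRingEnd ℂ) (f y) * (Real.exp (-ψ e y) : ℂ)) k where
  den := fun t ht => pr_isDen hψ.toIsWeight (box_isSec hψ hs) ht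
  cont := fun t ht e he =>
    ((contDiffOn_bx e.open_target (hψ.smooth e he) (hψ.pos e he) (hs.smooth e he)).continuousOn.mul
      (continuousOn_conj (ht.smooth e he).continuousOn)).mul
      (contDiffOn_exp_neg (hψ.smooth e he)).continuousOn
  congr := fun e he f g y hy h => by
    beta_reduce
    rw [h.eq_of_nhds]
  sum := fun e he N f hf y hy => by
    beta_reduce
    rw [map_sum, Finset.mul_sum, Finset.sum_mul]

theorem loc_Q1 {k : ℕ} {ψ : Fam n M ℝ} (hψ : IsPos (k + 1) ψ) {s : Fam n M ℂ}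
    (hs : IsSec k s) :
    Loc (M := M) (fun e f y => cn (lev (ψ e) y) (dbv (s e) y) (dbv f y) *
      (Real.exp (-ψ e y) : ℂ)) k where
  den := fun t ht => en_isDen hψ hs ht
  cont := fun t ht e he =>
    (continuousOn_cn e.open_target (hψ.smooth e he) (hψ.pos e he) (hs.smooth e he)
      (ht.smooth e he)).mul (contDiffOn_exp_neg (hψ.smooth e he)).continuousOn
  congr := fun e he f g y hy h => by
    beta_reduce
    rw [dbv_congr h]
  sum := fun e he N f hf y hy => by
    beta_reduce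
    rw [dbv_sum e.open_target hf hy, cn_sum_right, Finset.sum_mul]

theorem loc_P2 {k : ℕ} {ψ : Fam n M ℝ} (hψ : IsPos (k + 1) ψ) {s : Fam n M ℂ}
    (hs : IsSec k s) :
    Loc (M := M) (fun e f y => bx (ψ e) (s e) y * (starRingEnd ℂ) (bx (ψ e) f y) *
      (Real.exp (-ψ e y) : ℂ)) k where
  den := fun t ht => pr_isDen hψ.toIsWeight (box_isSec hψ hs) (box_isSec hψ ht)
  cont := fun t ht e he =>
    ((contDiffOn_bx e.open_target (hψ.smooth e he) (hψ.pos e he) (hs.smooth e he)).continuousOn.mul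
      (continuousOn_conj (contDiffOn_bx e.open_target (hψ.smooth e he) (hψ.pos e he)
        (ht.smooth e he)).continuousOn)).mul
      (contDiffOn_exp_neg (hψ.smooth e he)).continuousOn
  congr := fun e he f g y hy h => by
    beta_reduce
    rw [bx_congr h]
  sum := fun e he N f hf y hy => by
    beta_reduce
    rw [bx_sum e.open_target (hψ.smooth e he) (hψ.pos e he) hf hy, map_sum, Finset.mul_sum,
      Finset.sum_mul]

theorem loc_Q2 {k : ℕ} {ψ : Fam n M ℝ} (hψ : IsPos (k + 1) ψ) {s : Fam n M ℂ}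
    (hs : IsSec k s) :
    Loc (M := M) (fun e f y => (cn (lev (ψ e) y) (dbv (s e) y) (dbv f y) + qf (ψ e) (s e) f y) *
      (Real.exp (-ψ e y) : ℂ)) k where
  den := fun t ht => by
    have h1 := en_isDen hψ hs ht
    have h2 := qd_isDen hψ hs ht
    intro e he e' he' x hx
    have h3 := h1 e he e' he' x hx
    have h4 := h2 e he e' he' x hx
    unfold en at h3
    unfold qd at h4
    unfold qf
    beta_reduce at h3 h4 ⊢
    rw [add_mul, h3, h4]
    ring
  cont := fun t ht e he =>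
    ((continuousOn_cn e.open_target (hψ.smooth e he) (hψ.pos e he) (hs.smooth e he)
      (ht.smooth e he)).add (continuousOn_qf e.open_target (hψ.smooth e he) (hψ.pos e he)
      (hs.smooth e he) (ht.smooth e he))).mul (contDiffOn_exp_neg (hψ.smooth e he)).continuousOn
  congr := fun e he f g y hy h => by
    beta_reduce
    rw [dbv_congr h, qf_congr h]
  sum := fun e he N f hf y hy => by
    beta_reduce
    rw [dbv_sum e.open_target hf hy, cn_sum_right,
      qf_sum e.open_target (hψ.smooth e he) (hψ.pos e he) _ hf hy, ← Finset.sum_add_distrib,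
      Finset.sum_mul]

end B5

variable {n : ℕ} {M : Type*} [TopologicalSpace M] [ChartedSpace (E n) M]
  [IsManifold 𝓘(ℂ, E n) ω M]
variable [CompactSpace M] [T2Space M]
variable [MeasurableSpace M] [BorelSpace M] {μ : Measure M} {φ : Fam n M ℝ}

theorem ip_box (hφ : IsWeight 1 φ) (hμ : IsDens μ φ) {k : ℕ} {ψ : Fam n M ℝ}
    (hψ : IsPos (k + 1) ψ) {s t : Fam n M ℂ} (hs : IsSec k s) (ht : IsSec k t) :
    ip μ φ ψ (box ψ s) t = dp μ φ ψ s t :=
  B5.global hφ hμ (B5.loc_P1 hψ hs) (B5.loc_Q1 hψ hs)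
    (fun e he u hu hc hsu => integral_bx_mul e.open_target (hψ.smooth e he) (hψ.pos e he)
      (hs.smooth e he) hu hc hsu) ht

theorem bochner_global (hφ : IsWeight 1 φ) (hμ : IsDens μ φ) {k : ℕ} {ψ : Fam n M ℝ}
    (hψ : IsPos (k + 1) ψ) {s : Fam n M ℂ} (hs : IsSec k s) :
    (dp μ φ ψ s s).re ≤ (ip μ φ ψ (box ψ s) (box ψ s)).re := by
  haveI : IsFiniteMeasure μ := isFiniteMeasure_of_isDens hφ hμ
  have h1 : ip μ φ ψ (box ψ s) (box ψ s) = ∫ x, fn φ (fun e y =>
      (cn (lev (ψ e) y) (dbv (s e) y) (dbv (s e) y) + qf (ψ e) (s e) (s e) y) *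
      (Real.exp (-ψ e y) : ℂ)) x ∂μ :=
    B5.global hφ hμ (B5.loc_P2 hψ hs) (B5.loc_Q2 hψ hs)
      (fun e he u hu hc hsu => bochner_local e.open_target (hψ.smooth e he) (hψ.pos e he)
        (hs.smooth e he) hu hc hsu) hs
  have hi1 : Integrable (fn φ (en ψ s s)) μ :=
    (continuous_fn hφ (en_isDen hψ hs hs) ((B5.loc_Q1 hψ hs).cont s hs)).integrable_of_hasCompactSupport
      (HasCompactSupport.of_compactSpace _)
  have hi2 : Integrable (fn φ (qd ψ s s)) μ := by
    refine (continuous_fn hφ (qd_isDen hψ hs hs) ?_).integrable_of_hasCompactSupport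
      (HasCompactSupport.of_compactSpace _)
    intro e he
    exact (B5.continuousOn_qf e.open_target (hψ.smooth e he) (hψ.pos e he)
      (hs.smooth e he) (hs.smooth e he)).mul
      (B5.contDiffOn_exp_neg (hψ.smooth e he)).continuousOn
  have h2 : ∀ x, fn φ (fun e y =>
      (cn (lev (ψ e) y) (dbv (s e) y) (dbv (s e) y) + qf (ψ e) (s e) (s e) y) *
      (Real.exp (-ψ e y) : ℂ)) x = fn φ (en ψ s s) x + fn φ (qd ψ s s) x := by
    intro x
    unfold fn en qd qf
    ring
  simp_rw [h2] at h1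
  rw [integral_add hi1 hi2] at h1
  rw [h1, Complex.add_re]
  have h3 : 0 ≤ (∫ x, fn φ (qd ψ s s) x ∂μ).re := by
    have h4 : (∫ x, fn φ (qd ψ s s) x ∂μ).re = ∫ x, (fn φ (qd ψ s s) x).re ∂μ :=
      (integral_re hi2).symm
    rw [h4]
    apply integral_nonneg
    intro x
    have h5 := qf_self_nonneg (chartAt (E n) x).open_target (hψ.smooth _ (chart_mem_atlas _ x))
      (hψ.pos _ (chart_mem_atlas _ x)) (hs.smooth _ (chart_mem_atlas _ x)) (mem_chart_target _ x)
    show 0 ≤ (fn φ (qd ψ s s) x).re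
    unfold fn qd
    rw [mul_assoc, ← Complex.ofReal_mul, Complex.re_mul_ofReal]
    exact mul_nonneg h5 (by positivity)
  have h6 : dp μ φ ψ s s = ∫ x, fn φ (en ψ s s) x ∂μ := rfl
  rw [h6]
  linarith

end Pool.Agent.helper63.NU
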