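import Pool.Agent.helper69.NU.B1
import Pool.Agent.helper69.NU.B2
import Pool.Agent.helper51.NU.B3
import Pool.Agent.helper80.NU.B4
import Pool.Agent.helper46.NU.B5b
import Pool.Agent.helper41.NU.B7b
import Pool.Agent.helper85.NU.C2
import Pool.Agent.helper66.NU.C3

set_option autoImplicit false
set_option linter.all false

/-! Module C4: peak sections. -/

open MeasureTheory Filter Topology Set
open scoped ContDiff Manifold Matrix ENNReal ComplexOrder

noncomputable section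

namespace Pool.Agent.helper63.NU

namespace C4

/-- exponential decay beats powers -/
theorem exists_decay (n : ℕ) {C c δ : ℝ} (hc : 0 < c) (hδ : 0 < δ) :
    ∃ k₀ : ℕ, ∀ k : ℕ, k₀ ≤ k → C * (k : ℝ) ^ n * (C * Real.exp (-(c * k))) ≤ δ := by
  have h1 : Tendsto (fun x : ℝ => x ^ n * Real.exp (-x)) atTop (𝓝 0) :=
    Real.tendsto_pow_mul_exp_neg_atTop_nhds_zero n
  have h2 : Tendsto (fun k : ℕ => c * (k : ℝ)) atTop atTop :=
    Tendsto.const_mul_atTop hc tendsto_natCast_atTop_atTop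
  have h3 : Tendsto (fun k : ℕ => (C * C / c ^ n) * ((c * (k : ℝ)) ^ n * Real.exp (-(c * k))))
      atTop (𝓝 0) := by
    have := (h1.comp h2).const_mul (C * C / c ^ n)
    simpa using this
  have h4 : ∀ᶠ k : ℕ in atTop,
      (C * C / c ^ n) * ((c * (k : ℝ)) ^ n * Real.exp (-(c * k))) < δ :=
    h3.eventually_lt_const hδ
  obtain ⟨k₀, hk₀⟩ := eventually_atTop.1 h4
  refine ⟨k₀, fun k hk => ?_⟩
  have h5 := (hk₀ k hk).le
  have h6 : (C * C / c ^ n) * ((c * (k : ℝ)) ^ n * Real.exp (-(c * k)))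
      = C * (k : ℝ) ^ n * (C * Real.exp (-(c * k))) := by
    rw [mul_pow]
    have : c ^ n ≠ 0 := pow_ne_zero _ hc.ne'
    field_simp
  rw [← h6]
  exact h5

variable {n : ℕ} {M : Type*} [TopologicalSpace M] [ChartedSpace (E n) M]
  [IsManifold 𝓘(ℂ, E n) ω M]

omit [IsManifold 𝓘(ℂ, E n) ω M] in
theorem hp_self (k : ℕ) (φ : Fam n M ℝ) (s : Fam n M ℂ) (x : M) :
    hp k φ s s x = ((nrm k φ s x : ℝ) : ℂ) := by
  unfold hp nrm
  rw [Complex.mul_conj, Complex.normSq_eq_norm_sq]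
  push_cast
  ring

omit [IsManifold 𝓘(ℂ, E n) ω M] in
theorem nrm_nonneg (k : ℕ) (φ : Fam n M ℝ) (s : Fam n M ℂ) (x : M) : 0 ≤ nrm k φ s x := by
  unfold nrm
  positivity

variable [CompactSpace M] [T2Space M]
variable [MeasurableSpace M] [BorelSpace M] {μ : Measure M} {φ : Fam n M ℝ}

theorem ip_self_eq (μ : Measure M) (hφ : IsPos 1 φ) (k : ℕ) (s : Fam n M ℂ) :
    ip μ φ (psik k φ) s s = ((∫ x, nrm k φ s x * dl φ x ∂μ : ℝ) : ℂ) := by
  unfold ip
  have h0 := integral_ofReal (μ := μ) (𝕜 := ℂ) (f := fun x => nrm k φ s x * dl φ x)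
  refine Eq.trans ?_ h0
  apply integral_congr_ae
  refine Filter.Eventually.of_forall fun x => ?_
  show fn φ (pr (psik k φ) s s) x = ((nrm k φ s x * dl φ x : ℝ) : ℂ)
  rw [fn_pr_psik hφ, hp_self]
  push_cast
  rfl

theorem pyth (hφ : IsPos 1 φ) (hμ : IsDens μ φ) {k : ℕ} {s h : Fam n M ℂ}
    (hs : IsSec k s) (hh : IsSec k h) (h0 : ip μ φ (psik k φ) (s - h) h = 0) :
    ∫ x, nrm k φ s x * dl φ x ∂μ = (∫ x, nrm k φ (s - h) x * dl φ x ∂μ)
      + ∫ x, nrm k φ h x * dl φ x ∂μ := by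
  have hw := psik_isWeight hφ k
  have hsh : IsSec k (s - h) := hs.sub hh
  have e1 : (s - h) + h = s := sub_add_cancel s h
  have a1 : ip μ φ (psik k φ) s s
      = ip μ φ (psik k φ) (s - h) s + ip μ φ (psik k φ) h s := by
    have := ip_add_left hφ.toIsWeight hμ hw hsh hh hs (μ := μ)
    rw [e1] at this
    exact this
  have a2 : ip μ φ (psik k φ) s (s - h)
      = ip μ φ (psik k φ) (s - h) (s - h) + ip μ φ (psik k φ) h (s - h) := by
    have := ip_add_left hφ.toIsWeight hμ hw hsh hh hsh (μ := μ)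
    rw [e1] at this
    exact this
  have a3 : ip μ φ (psik k φ) s h
      = ip μ φ (psik k φ) (s - h) h + ip μ φ (psik k φ) h h := by
    have := ip_add_left hφ.toIsWeight hμ hw hsh hh hh (μ := μ)
    rw [e1] at this
    exact this
  have b1 : ip μ φ (psik k φ) h (s - h) = 0 := by
    rw [← ip_conj, h0, map_zero]
  rw [b1, add_zero] at a2
  rw [h0, zero_add] at a3
  rw [← ip_conj μ φ (psik k φ) s (s - h), ← ip_conj μ φ (psik k φ) s h, a2, a3,
    ip_self_eq μ hφ, ip_self_eq μ hφ, ip_self_eq μ hφ, Complex.conj_ofReal,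
    Complex.conj_ofReal] at a1
  exact_mod_cast a1

end C4

variable {n : ℕ} {M : Type*} [TopologicalSpace M] [ChartedSpace (E n) M]
  [IsManifold 𝓘(ℂ, E n) ω M]
variable [CompactSpace M] [T2Space M]
variable [MeasurableSpace M] [BorelSpace M] {μ : Measure M} {φ : Fam n M ℝ}

/-- Module C4: peak sections -/
theorem peak (hφ : IsPos 1 φ) (hμ : IsDens μ φ) {ε : ℝ} (hε : 0 < ε) :
    ∃ k₀ : ℕ, ∀ k ≥ k₀, ∀ x : M, ∃ s : Fam n M ℂ, IsHol k s ∧
      0 < ∫ x, nrm k φ s x * dl φ x ∂μ ∧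
      (1 - ε) * (k / Real.pi) ^ n * ∫ x, nrm k φ s x * dl φ x ∂μ ≤ nrm k φ s x := by
  haveI : IsFiniteMeasure μ := isFiniteMeasure_of_isDens hφ.toIsWeight hμ
  haveI : μ.IsOpenPosMeasure := isOpenPosMeasure_of_isDens hφ.toIsWeight hμ
  obtain ⟨k₀, C, hC, c, hc, hmod⟩ := model hφ hμ hε
  obtain ⟨k₁, hk₁⟩ := psik_isPos hφ
  -- the small number
  set η : ℝ := min (ε ^ 2 / 2) (1 / 2) with hη
  have hη0 : 0 < η := lt_min (by positivity) (by norm_num)
  have hη1 : η ≤ 1 / 2 := min_le_right _ _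
  have hη2 : η ≤ ε ^ 2 / 2 := min_le_left _ _
  obtain ⟨k₂, hk₂⟩ := C4.exists_decay n (C := C) (c := c) (δ := η ^ 2) hc (by positivity)
  refine ⟨max (max k₀ k₁) (max k₂ 1), fun k hk x => ?_⟩
  have hk0 : k₀ ≤ k := (le_max_left _ _).trans ((le_max_left _ _).trans hk)
  have hk1 : k₁ ≤ k := (le_max_right _ _).trans ((le_max_left _ _).trans hk)
  have hk2 : k₂ ≤ k := (le_max_left _ _).trans ((le_max_right _ _).trans hk)
  have hk3 : 1 ≤ k := (le_max_right _ _).trans ((le_max_right _ _).trans hk)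
  obtain ⟨σ, hσ, hσ1, hσA, hσd, hσh⟩ := hmod k hk0 x
  obtain ⟨hpos, -⟩ := hk₁ k hk1
  obtain ⟨h, hh, hle, horth⟩ := hormander hφ.toIsWeight hμ hpos hσ
  have hsub : ∫ x, nrm k φ (σ - h) x * dl φ x ∂μ ≤ C * Real.exp (-(c * k)) := by
    rw [C4.ip_self_eq μ hφ, Complex.ofReal_re] at hle
    exact hle.trans hσd
  have hpy := C4.pyth hφ hμ hσ hh.toIsSec (horth h hh)
  have hdl : ∀ x, 0 < dl φ x := dl_pos hφ
  have hA0 : 0 ≤ ∫ x, nrm k φ (σ - h) x * dl φ x ∂μ :=
    integral_nonneg fun x => mul_nonneg (C4.nrm_nonneg k φ _ x) (hdl x).le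
  have hAh : ∫ x, nrm k φ h x * dl φ x ∂μ ≤ (1 + ε) * (Real.pi / k) ^ n := by
    linarith
  have hAh0 : 0 ≤ ∫ x, nrm k φ h x * dl φ x ∂μ :=
    integral_nonneg fun x => mul_nonneg (C4.nrm_nonneg k φ _ x) (hdl x).le
  have hnx : nrm k φ (σ - h) x ≤ η ^ 2 := by
    refine (hσh h hh).trans ?_
    refine le_trans ?_ (hk₂ k hk2)
    exact mul_le_mul_of_nonneg_left hsub (by positivity)
  -- value at x
  have hval : (1 - η) ^ 2 ≤ nrm k φ h x := by
    unfold nrm at hσ1 hnx ⊢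
    set a : ℂ := σ (chartAt (E n) x) (chartAt (E n) x x) with ha
    set b : ℂ := h (chartAt (E n) x) (chartAt (E n) x x) with hb
    have hab : (σ - h) (chartAt (E n) x) (chartAt (E n) x x) = a - b := rfl
    rw [hab] at hnx
    set w : ℝ := Real.exp (-(k * φ (chartAt (E n) x) (chartAt (E n) x x))) with hw
    have hw0 : 0 < w := Real.exp_pos _
    set r : ℝ := Real.sqrt w with hr
    have hr0 : 0 < r := Real.sqrt_pos.2 hw0
    have hr2 : r ^ 2 = w := Real.sq_sqrt hw0.le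
    rw [← hr2, ← mul_pow] at hσ1 hnx ⊢
    have h1 : ‖a‖ * r = 1 := by
      have h0 : 0 ≤ ‖a‖ * r := by positivity
      nlinarith [sq_nonneg (‖a‖ * r - 1)]
    have h2 : ‖a - b‖ * r ≤ η := abs_le_of_sq_le_sq' hnx hη0.le |>.2
    have h3 : ‖a‖ ≤ ‖a - b‖ + ‖b‖ := by
      have := norm_add_le (a - b) b
      simpa using this
    have h4 : 1 - η ≤ ‖b‖ * r := by nlinarith
    exact pow_le_pow_left₀ (by linarith) h4 2
  refine ⟨h, hh, ?_, ?_⟩
  · have hcont : Continuous fun x => nrm k φ h x * dl φ x :=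
      (continuous_nrm hφ.toIsWeight hh.toIsSec).mul (continuous_dl hφ)
    have hpt : 0 < nrm k φ h x * dl φ x := by
      refine mul_pos (lt_of_lt_of_le ?_ hval) (hdl x)
      have : (0 : ℝ) < 1 - η := by linarith
      positivity
    exact hcont.integral_pos_of_hasCompactSupport_nonneg_nonzero
      (HasCompactSupport.of_compactSpace _)
      (fun x => mul_nonneg (C4.nrm_nonneg k φ _ x) (hdl x).le) hpt.ne'
  · rcases le_or_gt 1 ε with h1 | h1
    · have : (1 - ε) * ((k : ℝ) / Real.pi) ^ n * ∫ x, nrm k φ h x * dl φ x ∂μ ≤ 0 := by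
        apply mul_nonpos_of_nonpos_of_nonneg _ hAh0
        exact mul_nonpos_of_nonpos_of_nonneg (by linarith) (by positivity)
      exact this.trans (C4.nrm_nonneg k φ _ x)
    · refine le_trans ?_ hval
      have hkp : (0 : ℝ) < k := by exact_mod_cast hk3
      have h2 : ((k : ℝ) / Real.pi) ^ n * ∫ x, nrm k φ h x * dl φ x ∂μ ≤ 1 + ε := by
        calc ((k : ℝ) / Real.pi) ^ n * ∫ x, nrm k φ h x * dl φ x ∂μ
            ≤ ((k : ℝ) / Real.pi) ^ n * ((1 + ε) * (Real.pi / k) ^ n) :=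
              mul_le_mul_of_nonneg_left hAh (by positivity)
          _ = (1 + ε) * (((k : ℝ) / Real.pi) * (Real.pi / k)) ^ n := by rw [mul_pow]; ring
          _ = 1 + ε := by
              have : ((k : ℝ) / Real.pi) * (Real.pi / k) = 1 := by
                field_simp
              rw [this, one_pow, mul_one]
      calc (1 - ε) * ((k : ℝ) / Real.pi) ^ n * ∫ x, nrm k φ h x * dl φ x ∂μ
          = (1 - ε) * (((k : ℝ) / Real.pi) ^ n * ∫ x, nrm k φ h x * dl φ x ∂μ) := by ring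
        _ ≤ (1 - ε) * (1 + ε) := mul_le_mul_of_nonneg_left h2 (by linarith)
        _ ≤ (1 - η) ^ 2 := by nlinarith [sq_nonneg η]

end Pool.Agent.helper63.NU
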