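import Pool.Agent.helper63.NU.Defs3
import Pool.Agent.helper41.NU.A1
import Pool.Agent.helper41.NU.A2
import Pool.Agent.helper40.NU.A5
import Pool.Agent.helper70.NU.A7
import Pool.Agent.helper69.NU.A9
import Pool.Agent.helper69.NU.B1
import Pool.Agent.helper69.NU.B2
import Pool.Agent.helper51.NU.B3
import Pool.Agent.helper80.NU.B4
import Pool.Agent.helper41.NU.B7b
import Pool.Agent.helper53.NU.C1
import Pool.Agent.helper85.NU.C2
import Pool.Agent.helper66.NU.C3

set_option autoImplicit false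
set_option linter.all false

/-! Module Q13: separation of points by the powers of `-K`. -/

open MeasureTheory Filter Topology Set
open scoped ContDiff Manifold Matrix ENNReal ComplexOrder

noncomputable section

namespace Pool.Agent.helper63.NU

namespace Q13

open C3

/-- exponential decay beats powers -/
theorem exists_decay (n : ℕ) (A : ℝ) {c δ : ℝ} (hc : 0 < c) (hδ : 0 < δ) :
    ∃ k₀ : ℕ, ∀ k : ℕ, k₀ ≤ k → A * ((k : ℝ) ^ n * Real.exp (-(c * k))) ≤ δ := by
  have h1 : Tendsto (fun x : ℝ => x ^ n * Real.exp (-x)) atTop (𝓝 0) :=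
    Real.tendsto_pow_mul_exp_neg_atTop_nhds_zero n
  have h2 : Tendsto (fun k : ℕ => c * (k : ℝ)) atTop atTop :=
    Tendsto.const_mul_atTop hc tendsto_natCast_atTop_atTop
  have h3 : Tendsto (fun k : ℕ => (A / c ^ n) * ((c * (k : ℝ)) ^ n * Real.exp (-(c * k))))
      atTop (𝓝 0) := by
    have := (h1.comp h2).const_mul (A / c ^ n)
    simpa using this
  have h4 : ∀ᶠ k : ℕ in atTop,
      (A / c ^ n) * ((c * (k : ℝ)) ^ n * Real.exp (-(c * k))) < δ :=
    h3.eventually_lt_const hδ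
  obtain ⟨k₀, hk₀⟩ := eventually_atTop.1 h4
  refine ⟨k₀, fun k hk => ?_⟩
  have h5 := (hk₀ k hk).le
  have h6 : (A / c ^ n) * ((c * (k : ℝ)) ^ n * Real.exp (-(c * k)))
      = A * ((k : ℝ) ^ n * Real.exp (-(c * k))) := by
    rw [mul_pow]
    have : c ^ n ≠ 0 := pow_ne_zero _ hc.ne'
    field_simp
  rw [← h6]
  exact h5

section

variable {n : ℕ} {M : Type*} [TopologicalSpace M] [ChartedSpace (E n) M]
  [IsManifold 𝓘(ℂ, E n) ω M]
variable [CompactSpace M] [T2Space M]
variable [MeasurableSpace M] [BorelSpace M] {μ : Measure M} {φ : Fam n M ℝ}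

theorem ip_self_eq (μ : Measure M) (hφ : IsPos 1 φ) (k : ℕ) (s : Fam n M ℂ) :
    ip μ φ (psik k φ) s s = ((∫ x, nrm k φ s x * dl φ x ∂μ : ℝ) : ℂ) := by
  unfold ip
  have h0 := integral_ofReal (μ := μ) (𝕜 := ℂ) (f := fun x => nrm k φ s x * dl φ x)
  refine Eq.trans ?_ h0
  apply integral_congr_ae
  refine Filter.Eventually.of_forall fun x => ?_
  show fn φ (pr (psik k φ) s s) x = ((nrm k φ s x * dl φ x : ℝ) : ℂ)
  have hp_self : hp k φ s s x = ((nrm k φ s x : ℝ) : ℂ) := by
    unfold hp nrm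
    rw [Complex.mul_conj, Complex.normSq_eq_norm_sq]
    push_cast
    ring
  rw [fn_pr_psik hφ, hp_self]
  push_cast
  rfl

/-- sub-mean value inequality at one point for sections holomorphic near this point -/
theorem sub_pt (hφ : IsPos 1 φ) (hμ : IsDens μ φ) {e : Ch n M} (he : e ∈ atlas (E n) M)
    {q : E n} (hq : q ∈ e.target) {ρ : ℝ} (hρ : 0 < ρ) :
    ∃ k₀ : ℕ, ∃ C > 0, ∀ k ≥ k₀, ∀ τ : Fam n M ℂ, IsSec k τ →
      DifferentiableOn ℂ (τ e) (Metric.closedBall q ρ) →
      nrm k φ τ (e.symm q) ≤ C * (k : ℝ) ^ n * ∫ x, nrm k φ τ x * dl φ x ∂μ := by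
  have hU := e.open_target
  have hsm := hφ.smooth e he
  have hpos := hφ.pos e he
  obtain ⟨C₂, hC₂, r₃, hr₃, hsub⟩ := submean_unif hU hsm isCompact_singleton
    (singleton_subset_iff.2 hq)
  obtain ⟨hrU, hsub2⟩ := hsub q rfl
  have hK1 : IsCompact (Metric.closedBall q r₃) := isCompact_closedBall q r₃
  obtain ⟨d, hd, hdl⟩ := lower_of_pos hK1 ((continuousOn_det hU hsm).mono hrU)
    (fun y hy => det_pos (hpos y (hrU hy)))
  obtain ⟨k₃, hk₃⟩ := exists_nat_ge ((r₃ / ρ) ^ 2)
  refine ⟨max 1 k₃, C₂ / d, by positivity, fun k hk τ hτ hdiff => ?_⟩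
  have hk1 : 1 ≤ k := (le_max_left _ _).trans hk
  have hkk3 : k₃ ≤ k := (le_max_right _ _).trans hk
  have hk0 : (0 : ℝ) < k := by exact_mod_cast hk1
  have hxs : e.symm q ∈ e.source := e.map_target hq
  have hex : e (e.symm q) = q := e.right_inv hq
  rw [nrm_eq hφ.toIsWeight hτ he hxs, hex]
  set ρ' : ℝ := r₃ / Real.sqrt k with hρ'
  have hsk : 0 < Real.sqrt k := Real.sqrt_pos.2 hk0
  have hρ1 : ρ' ≤ ρ := by
    rw [hρ', div_le_iff₀ hsk]
    have h1 : r₃ / ρ ≤ Real.sqrt k := by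
      refine Real.le_sqrt_of_sq_le (hk₃.trans ?_)
      exact_mod_cast hkk3
    rw [div_le_iff₀ hρ] at h1
    linarith
  have hρ2 : ρ' ≤ r₃ := by
    rw [hρ', div_le_iff₀ hsk]
    have h1 : 1 ≤ Real.sqrt k := by
      rw [Real.one_le_sqrt]; exact_mod_cast hk1
    nlinarith
  set B' : Set (E n) := Metric.closedBall q ρ' with hB'
  have hB'B : B' ⊆ Metric.closedBall q r₃ := Metric.closedBall_subset_closedBall hρ2
  have hB'c : IsCompact B' := isCompact_closedBall q ρ'
  have hB'e : B' ⊆ e.target := hB'B.trans hrU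
  have hdiff' : DifferentiableOn ℂ (τ e) B' :=
    hdiff.mono (Metric.closedBall_subset_closedBall hρ1)
  have h1 := hsub2 k hk1 _ hdiff'
  have h2 := setIntegral_le hφ hμ hτ he hB'c hB'e
  have h3 : ∫ y in B', ‖τ e y‖ ^ 2 * Real.exp (-(k * φ e y)) ≤
      1 / d * ∫ y in B', ‖τ e y‖ ^ 2 * Real.exp (-(k * φ e y)) * (lev (φ e) y).det.re := by
    rw [← integral_const_mul]
    refine integral_mono_of_nonneg (Eventually.of_forall fun y => by positivity) ?_ ?_
    · have hio : IntegrableOn (fun y => ‖τ e y‖ ^ 2 *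
          Real.exp (-(k * φ e y)) * (lev (φ e) y).det.re) B' := ?_
      · exact Integrable.const_mul hio _
      refine ContinuousOn.integrableOn_compact hB'c ?_
      refine ContinuousOn.mul (ContinuousOn.mul ?_ ?_) ((continuousOn_det hU hsm).mono hB'e)
      · exact (hdiff'.continuousOn.norm).pow 2
      · refine Real.continuous_exp.comp_continuousOn (ContinuousOn.neg ?_)
        exact continuousOn_const.mul (hsm.continuousOn.mono hB'e)
    · refine (ae_restrict_iff' hB'c.measurableSet).2 (Eventually.of_forall fun y hy => ?_)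
      have h4 := hdl y (hB'B hy)
      have h5 : 0 ≤ ‖τ e y‖ ^ 2 * Real.exp (-(k * φ e y)) := by positivity
      show _ ≤ 1 / d * _
      rw [one_div, mul_comm, ← div_eq_mul_inv, le_div_iff₀ hd]
      exact mul_le_mul_of_nonneg_left h4 h5
  have hI := integral_nrm_nonneg (μ := μ) hφ k τ
  calc _ ≤ _ := h1
    _ ≤ C₂ * (k : ℝ) ^ n * (1 / d * ∫ x, nrm k φ τ x * dl φ x ∂μ) := by
        refine mul_le_mul_of_nonneg_left (h3.trans ?_) (by positivity)
        exact mul_le_mul_of_nonneg_left h2 (by positivity)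
    _ = C₂ / d * (k : ℝ) ^ n * ∫ x, nrm k φ τ x * dl φ x ∂μ := by ring

/-- the model section at one point with small support -/
theorem model_pt (hφ : IsPos 1 φ) (hμ : IsDens μ φ) {e : Ch n M} (he : e ∈ atlas (E n) M)
    {p : E n} (hp : p ∈ e.target) {ρ : ℝ} (hρ : 0 < ρ) :
    ∃ δ > 0, δ ≤ ρ ∧ Metric.closedBall p δ ⊆ e.target ∧ ∃ k₀ : ℕ, ∃ C > 0, ∃ c > 0, ∀ k ≥ k₀,
      ∃ σ : Fam n M ℂ, IsSec k σ ∧ nrm k φ σ (e.symm p) = 1 ∧
      (dp μ φ (psik k φ) σ σ).re ≤ C * Real.exp (-(c * k)) ∧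
      DifferentiableOn ℂ (σ e) (Metric.closedBall p (δ / 2)) ∧
      ∀ (e' : Ch n M) (y : E n), e'.symm y ∉ e.symm '' Metric.closedBall p δ → σ e' y = 0 := by
  have hU := e.open_target
  have hsm := hφ.smooth e he
  have hpos := hφ.pos e he
  have hKe : ({p} : Set (E n)) ⊆ e.target := singleton_subset_iff.2 hp
  obtain ⟨δ₀, hδ₀, hδU₀, c₀, hc₀, t, ht0, ht1, htε, hloc⟩ := local_data hU hsm hpos
    isCompact_singleton hKe one_pos
  obtain ⟨k₂, hk₂⟩ := psik_isPos hφ
  obtain ⟨g, hg, hgp, hgy₀⟩ := hloc p rfl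
  set δ : ℝ := min δ₀ ρ with hδdef
  have hδ : 0 < δ := lt_min hδ₀ hρ
  set B : Set (E n) := Metric.closedBall p δ with hB
  have hBc : IsCompact B := isCompact_closedBall p δ
  have hBe : B ⊆ e.target := by
    refine Set.Subset.trans ?_ hδU₀
    intro y hy
    exact Metric.mem_cthickening_of_dist_le y p δ₀ _ rfl
      ((Metric.mem_closedBall.1 hy).trans (min_le_left _ _))
  have hgy : ∀ y ∈ B, c₀ * ‖y - p‖ ^ 2 ≤ φ e y - 2 * (g y).re := fun y hy =>
    (hgy₀ y (Metric.closedBall_subset_closedBall (min_le_left _ _) hy)).2.1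
  have hpB : p ∈ B := Metric.mem_closedBall_self hδ.le
  obtain ⟨D₁, hD₁, hD₁u⟩ := upper_bound hBc ((continuousOn_det hU hsm).mono hBe)
  -- the bump function
  let χ : ContDiffBump (0 : E n) := ⟨δ / 2, δ, by positivity, by linarith⟩
  have hχs : ContDiff ℝ ∞ (χ : E n → ℝ) := χ.contDiff
  have hχ0 : ∀ z : E n, δ < ‖z‖ → χ z = 0 := fun z hz => χ.zero_of_le_dist (by
    rw [dist_zero_right]; exact hz.le)
  have hχ1 : ∀ z : E n, ‖z‖ ≤ δ / 2 → χ z = 1 := fun z hz => χ.one_of_mem_closedBall (by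
    rw [mem_closedBall_zero_iff]; exact hz)
  have hχsc : ContDiff ℝ ∞ (fun z : E n => ((χ z : ℝ) : ℂ)) := Complex.ofRealCLM.contDiff.comp hχs
  obtain ⟨A, hA, hAb⟩ : ∃ A > 0, ∀ z ∈ Metric.closedBall (0 : E n) δ,
      ‖dbv (fun z => ((χ z : ℝ) : ℂ)) z‖ ≤ A := by
    refine upper_bound (isCompact_closedBall 0 δ) (Continuous.continuousOn ?_)
    exact (continuous_pi fun j => (contDiff_db hχsc j).continuous).norm
  obtain ⟨Cn, hCn, hCnb⟩ := cn_upper hU hsm hpos hBc hBe A
  set V : ℝ := volume.real B with hV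
  have hV0 : 0 ≤ V := measureReal_nonneg
  refine ⟨δ, hδ, min_le_right _ _, hBe, max 1 k₂, 1 + 2 * Cn * D₁ * V, by positivity,
    c₀ * (δ / 2) ^ 2, by positivity, fun k hk => ?_⟩
  have hk1 : 1 ≤ k := (le_max_left _ _).trans hk
  have hkk2 : k₂ ≤ k := (le_max_right _ _).trans hk
  have hk0 : (0 : ℝ) < k := by exact_mod_cast hk1
  set u : E n → ℂ := mu χ g k p with hu
  have huc : ContDiff ℝ ∞ u := mu_contDiff hχs hg k p
  have huB : tsupport u ⊆ B := mu_tsupport hχ0 k p
  have hcs : HasCompactSupport u := hBc.of_isClosed_subset (isClosed_tsupport u) huB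
  have hs : IsSec k (ext k e u : Fam n M ℂ) := ext_isSec k he huc hcs (huB.trans hBe)
  have hxs : e.symm p ∈ e.source := e.map_target hp
  have hex : e (e.symm p) = p := e.right_inv hp
  have hposK := hk₂ k hkk2
  refine ⟨ext k e u, hs, ?_, ?_, ?_, fun e' y hy => ext_zero k huB hy⟩
  · rw [nrm_eq hφ.toIsWeight hs he hxs, hex, ext_apply k he u hp, hu, norm_mu_sq]
    rw [sub_self, hχ1 0 (by simp; positivity), hgp]
    simp
  · rw [dp_ext hφ hμ hposK.1 he hBc hBe huc huB]
    refine (Complex.re_le_norm _).trans ?_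
    have hbd : ∀ y ∈ B, ‖cn (lev (psik k φ e) y) (dbv u y) (dbv u y) *
        (Real.exp (-psik k φ e y) : ℂ)‖ ≤ 2 * Cn * D₁ * Real.exp (-(c₀ * (δ / 2) ^ 2 * k)) := by
      intro y hy
      have hye := hBe hy
      have hP := hposK.1.pos e he y hye
      rw [norm_mul]
      have h1 : ‖cn (lev (psik k φ e) y) (dbv u y) (dbv u y)‖ =
          (cn (lev (psik k φ e) y) (dbv u y) (dbv u y)).re := by
        rw [← Complex.re_eq_norm.2 ?_]
        rw [Complex.le_def]
        exact ⟨cn_self_nonneg hP _, (cn_self_im hP _).symm⟩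
      have h2 : ‖(Real.exp (-psik k φ e y) : ℂ)‖ = Real.exp (-(k * φ e y)) * (lev (φ e) y).det.re := by
        rw [Complex.norm_real, Real.norm_of_nonneg (Real.exp_pos _).le]
        have hdy := det_pos (hpos y hye)
        unfold psik
        rw [neg_sub, sub_eq_add_neg, Real.exp_add, Real.exp_log hdy, mul_comm]
      rw [h1, h2]
      have h3 := hposK.2 e he y hye (dbv u y)
      have hdbv : dbv u y = fun j => Complex.exp (k * g y) *
          dbv (fun z => ((χ z : ℝ) : ℂ)) (y - p) j := by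
        funext j
        rw [hu]; exact dbv_mu hχs hg k p y j
      have h4 : (cn (lev (φ e) y) (dbv u y) (dbv u y)).re = ‖Complex.exp (k * g y)‖ ^ 2 *
          (cn (lev (φ e) y) (dbv (fun z => ((χ z : ℝ) : ℂ)) (y - p))
            (dbv (fun z => ((χ z : ℝ) : ℂ)) (y - p))).re := by
        rw [hdbv]; exact cn_smul _ _ _
      have hcnn := cn_self_nonneg (hpos y hye) (dbv (fun z => ((χ z : ℝ) : ℂ)) (y - p))
      have hdy := det_pos (hpos y hye)
      by_cases hin : ‖y - p‖ < δ / 2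
      · have h5 : dbv (fun z => ((χ z : ℝ) : ℂ)) (y - p) = 0 := by
          funext j
          have hev : (fun z => ((χ z : ℝ) : ℂ)) =ᶠ[𝓝 (y - p)] fun _ => 1 := by
            have : ∀ᶠ z in 𝓝 (y - p), ‖z‖ < δ / 2 :=
              continuous_norm.continuousAt.eventually_lt_const hin
            filter_upwards [this] with z hz
            rw [hχ1 z hz.le]; simp
          show db j _ _ = 0
          rw [db_congr hev, db_const]
        rw [h5] at h4
        have h6 : (cn (lev (φ e) y) 0 0).re = 0 := by simp [cn]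
        rw [h4, h6] at h3
        have h7 := cn_self_nonneg hP (dbv u y)
        have h8 : (cn (lev (psik k φ e) y) (dbv u y) (dbv u y)).re = 0 :=
          le_antisymm (by simpa using h3) h7
        rw [h8, zero_mul]
        positivity
      · push Not at hin
        have hyp : y - p ∈ Metric.closedBall (0 : E n) δ := by
          rw [mem_closedBall_zero_iff, ← dist_eq_norm]; exact hy
        have h5 := hCnb y hy _ (hAb (y - p) hyp)
        have h6 : ‖Complex.exp (k * g y)‖ ^ 2 * Real.exp (-(k * φ e y)) ≤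
            Real.exp (-(c₀ * (δ / 2) ^ 2 * k)) := by
          rw [Complex.norm_exp, ← Real.exp_nat_mul, ← Real.exp_add]
          refine Real.exp_le_exp.2 ?_
          have h7 := hgy y hy
          have h8 : (δ / 2) ^ 2 ≤ ‖y - p‖ ^ 2 := by gcongr
          have h9 : c₀ * (δ / 2) ^ 2 ≤ φ e y - 2 * (g y).re :=
            (mul_le_mul_of_nonneg_left h8 hc₀.le).trans h7
          have h10 := mul_le_mul_of_nonneg_left h9 hk0.le
          simp only [Complex.mul_re, Complex.natCast_re, Complex.natCast_im, zero_mul, sub_zero]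
          push_cast
          linarith
        have h2k : (2 : ℝ) / k ≤ 2 := by
          rw [div_le_iff₀ hk0]
          have : (1 : ℝ) ≤ k := by exact_mod_cast hk1
          linarith
        calc (cn (lev (psik k φ e) y) (dbv u y) (dbv u y)).re *
              (Real.exp (-(k * φ e y)) * (lev (φ e) y).det.re)
            ≤ (2 / k * (‖Complex.exp (k * g y)‖ ^ 2 *
          (cn (lev (φ e) y) (dbv (fun z => ((χ z : ℝ) : ℂ)) (y - p))
            (dbv (fun z => ((χ z : ℝ) : ℂ)) (y - p))).re)) *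
              (Real.exp (-(k * φ e y)) * (lev (φ e) y).det.re) := by
              rw [← h4]; gcongr
          _ = 2 / k * (cn (lev (φ e) y) (dbv (fun z => ((χ z : ℝ) : ℂ)) (y - p))
            (dbv (fun z => ((χ z : ℝ) : ℂ)) (y - p))).re * (lev (φ e) y).det.re *
              (‖Complex.exp (k * g y)‖ ^ 2 * Real.exp (-(k * φ e y))) := by ring
          _ ≤ 2 * Cn * D₁ * Real.exp (-(c₀ * (δ / 2) ^ 2 * k)) := by
              have := hD₁u y hy
              gcongr
    refine (norm_setIntegral_le_of_norm_le_const (hBc.measure_lt_top) hbd).trans ?_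
    rw [← hV]
    have : 0 ≤ Real.exp (-(c₀ * (δ / 2) ^ 2 * k)) := by positivity
    nlinarith [this]
  · have h1 : DifferentiableOn ℂ (fun y => Complex.exp (k * g y)) (Metric.closedBall p (δ / 2)) :=
      (hg.const_mul _).cexp.differentiableOn
    refine h1.congr fun y hy => ?_
    have hyB : y ∈ B := Metric.closedBall_subset_closedBall (by linarith) hy
    rw [ext_apply k he u (hBe hyB), hu]
    unfold mu
    rw [hχ1 (y - p) (by rw [← dist_eq_norm]; exact Metric.mem_closedBall.1 hy)]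
    simp

/-- a section made equal to `0` where it is meaningless -/
def clean (h : Fam n M ℂ) : Fam n M ℂ := by
  classical
  exact fun e y => if e ∈ atlas (E n) M ∧ y ∈ e.target then h e y else 0

omit [IsManifold 𝓘(ℂ, E n) ω M] [CompactSpace M] [T2Space M] [MeasurableSpace M] [BorelSpace M] in
theorem clean_eq (h : Fam n M ℂ) {e : Ch n M} (he : e ∈ atlas (E n) M) {y : E n}
    (hy : y ∈ e.target) : clean h e y = h e y := by
  unfold clean
  exact if_pos ⟨he, hy⟩

omit [IsManifold 𝓘(ℂ, E n) ω M] [CompactSpace M] [T2Space M] [MeasurableSpace M] [BorelSpace M] in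
theorem clean_mem {k : ℕ} {h : Fam n M ℂ} (hh : IsHol k h) : clean h ∈ H0 n M k := by
  refine ⟨⟨⟨fun e he => ?_, fun e he e' he' x hx => ?_⟩, fun e he => ?_⟩, fun e y hey => ?_⟩
  · exact (hh.smooth e he).congr fun y hy => clean_eq h he hy
  · rw [clean_eq h he' (e'.map_source hx.2), clean_eq h he (e.map_source hx.1)]
    exact hh.trans e he e' he' x hx
  · exact (hh.hol e he).congr fun y hy => clean_eq h he hy
  · unfold clean
    exact if_neg hey

omit [IsManifold 𝓘(ℂ, E n) ω M] [CompactSpace M] [T2Space M] [MeasurableSpace M] [BorelSpace M] in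
theorem nrm_clean (k : ℕ) (φ : Fam n M ℝ) (h : Fam n M ℂ) (x : M) :
    nrm k φ (clean h) x = nrm k φ h x := by
  unfold nrm
  rw [clean_eq h (chart_mem_atlas (E n) x) (mem_chart_target (E n) x)]

end

end Q13

variable {n : ℕ} {M : Type*} [TopologicalSpace M] [ChartedSpace (E n) M]
  [IsManifold 𝓘(ℂ, E n) ω M]
variable [CompactSpace M] [T2Space M] [ConnectedSpace M]
variable [MeasurableSpace M] [BorelSpace M] {μ : Measure M} {φ : Fam n M ℝ}

/-- separation of points by the powers of `-K` -/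
theorem separate (hφ : IsPos 1 φ) (hμ : IsDens μ φ) {x x' : M} (hxx : x ≠ x') :
    ∃ k : ℕ, 1 ≤ k ∧ ∃ s ∈ H0 n M k, nrm k φ s x' < nrm k φ s x := by
  classical
  set e : Ch n M := chartAt (E n) x with hedef
  have he : e ∈ atlas (E n) M := chart_mem_atlas (E n) x
  have hxe : x ∈ e.source := mem_chart_source (E n) x
  set p : E n := e x with hpdef
  have hp : p ∈ e.target := mem_chart_target (E n) x
  have hep : e.symm p = x := e.left_inv hxe
  obtain ⟨ρ, hρ, hρB⟩ : ∃ ρ > 0, Metric.closedBall p ρ ⊆ e.target ∩ e.symm ⁻¹' {x'}ᶜ := by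
    have ho : IsOpen (e.target ∩ e.symm ⁻¹' {x'}ᶜ) :=
      e.symm.isOpen_inter_preimage isClosed_singleton.isOpen_compl
    have hm : p ∈ e.target ∩ e.symm ⁻¹' {x'}ᶜ := ⟨hp, by
      show e.symm p ∉ ({x'} : Set M)
      rw [hep]; exact hxx⟩
    exact Metric.nhds_basis_closedBall.mem_iff.1 (ho.mem_nhds hm)
  obtain ⟨δ, hδ, hδρ, hδe, k₁, C, hC, c, hc, hmod⟩ := Q13.model_pt hφ hμ he hp hρ
  set S : Set M := e.symm '' Metric.closedBall p δ with hS
  have hScl : IsClosed S := C3.isClosed_image (isCompact_closedBall p δ) hδe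
  have hx'S : x' ∉ S := by
    rintro ⟨y, hy, hyx⟩
    have := hρB (Metric.closedBall_subset_closedBall hδρ hy)
    exact this.2 hyx
  set e' : Ch n M := chartAt (E n) x' with he'def
  have he' : e' ∈ atlas (E n) M := chart_mem_atlas (E n) x'
  have hxe' : x' ∈ e'.source := mem_chart_source (E n) x'
  set q : E n := e' x' with hqdef
  have hq : q ∈ e'.target := mem_chart_target (E n) x'
  have hep' : e'.symm q = x' := e'.left_inv hxe'
  obtain ⟨ρ', hρ', hρB'⟩ : ∃ ρ > 0, Metric.closedBall q ρ ⊆ e'.target ∩ e'.symm ⁻¹' Sᶜ := by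
    have ho : IsOpen (e'.target ∩ e'.symm ⁻¹' Sᶜ) :=
      e'.symm.isOpen_inter_preimage hScl.isOpen_compl
    have hm : q ∈ e'.target ∩ e'.symm ⁻¹' Sᶜ := ⟨hq, by
      show e'.symm q ∉ S
      rw [hep']; exact hx'S⟩
    exact Metric.nhds_basis_closedBall.mem_iff.1 (ho.mem_nhds hm)
  obtain ⟨k₂, C₁, hC₁, hsub₁⟩ := Q13.sub_pt hφ hμ he hp (half_pos hδ)
  obtain ⟨k₃, C₂, hC₂, hsub₂⟩ := Q13.sub_pt hφ hμ he' hq hρ'
  obtain ⟨k₄, hk₄⟩ := psik_isPos hφ
  obtain ⟨k₅, hk₅⟩ := Q13.exists_decay n (C₁ * C) hc (show (0 : ℝ) < 1 / 16 by norm_num)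
  obtain ⟨k₆, hk₆⟩ := Q13.exists_decay n (C₂ * C) hc (show (0 : ℝ) < 1 / 16 by norm_num)
  set k : ℕ := 1 + k₁ + k₂ + k₃ + k₄ + k₅ + k₆ with hk
  obtain ⟨σ, hσ, hσ1, hσd, hσhol, hσ0⟩ := hmod k (by omega)
  obtain ⟨hpos, -⟩ := hk₄ k (by omega)
  obtain ⟨h, hh, hle, -⟩ := hormander hφ.toIsWeight hμ hpos hσ
  have hsub : ∫ x, nrm k φ (σ - h) x * dl φ x ∂μ ≤ C * Real.exp (-(c * k)) := by
    rw [Q13.ip_self_eq μ hφ, Complex.ofReal_re] at hle
    exact hle.trans hσd
  have hsh : IsSec k (σ - h) := IsSec.sub hσ hh.toIsSec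
  have hd1 : DifferentiableOn ℂ ((σ - h) e) (Metric.closedBall p (δ / 2)) := by
    have h1 : Metric.closedBall p (δ / 2) ⊆ e.target :=
      (Metric.closedBall_subset_closedBall (by linarith)).trans hδe
    exact hσhol.sub ((hh.hol e he).mono h1)
  have hd2 : DifferentiableOn ℂ ((σ - h) e') (Metric.closedBall q ρ') := by
    have h1 : DifferentiableOn ℂ (fun y => - h e' y) (Metric.closedBall q ρ') :=
      ((hh.hol e' he').mono fun y hy => (hρB' hy).1).neg
    refine h1.congr fun y hy => ?_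
    show σ e' y - h e' y = _
    rw [hσ0 e' y (hρB' hy).2, zero_sub]
  have ha1 : nrm k φ (σ - h) x ≤ 1 / 16 := by
    have h1 := hsub₁ k (by omega) (σ - h) hsh hd1
    rw [hep] at h1
    refine h1.trans ((mul_le_mul_of_nonneg_left hsub (by positivity)).trans ?_)
    have h2 := hk₅ k (by omega)
    calc C₁ * (k : ℝ) ^ n * (C * Real.exp (-(c * k)))
        = C₁ * C * ((k : ℝ) ^ n * Real.exp (-(c * k))) := by ring
      _ ≤ _ := h2
  have ha2 : nrm k φ (σ - h) x' ≤ 1 / 16 := by
    have h1 := hsub₂ k (by omega) (σ - h) hsh hd2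
    rw [hep'] at h1
    refine h1.trans ((mul_le_mul_of_nonneg_left hsub (by positivity)).trans ?_)
    have h2 := hk₆ k (by omega)
    calc C₂ * (k : ℝ) ^ n * (C * Real.exp (-(c * k)))
        = C₂ * C * ((k : ℝ) ^ n * Real.exp (-(c * k))) := by ring
      _ ≤ _ := h2
  -- value at `x'`
  have hb2 : nrm k φ h x' ≤ 1 / 16 := by
    refine le_of_eq_of_le ?_ ha2
    unfold nrm
    have : (σ - h) (chartAt (E n) x') (chartAt (E n) x' x') = - h e' q := by
      show σ e' q - h e' q = _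
      rw [hσ0 e' q (by rw [hep']; exact hx'S), zero_sub]
    rw [this, norm_neg]
  -- value at `x`
  have hb1 : (1 - 1 / 4) ^ 2 ≤ nrm k φ h x := by
    rw [hep] at hσ1
    unfold nrm at hσ1 ha1 ⊢
    set a : ℂ := σ (chartAt (E n) x) (chartAt (E n) x x) with ha
    set b : ℂ := h (chartAt (E n) x) (chartAt (E n) x x) with hb
    have hab : (σ - h) (chartAt (E n) x) (chartAt (E n) x x) = a - b := rfl
    rw [hab] at ha1
    set w : ℝ := Real.exp (-(k * φ (chartAt (E n) x) (chartAt (E n) x x))) with hw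
    have hw0 : 0 < w := Real.exp_pos _
    set r : ℝ := Real.sqrt w with hr
    have hr0 : 0 < r := Real.sqrt_pos.2 hw0
    have hr2 : r ^ 2 = w := Real.sq_sqrt hw0.le
    rw [← hr2, ← mul_pow] at hσ1 ha1 ⊢
    have h1 : ‖a‖ * r = 1 := by
      have h0 : 0 ≤ ‖a‖ * r := by positivity
      nlinarith [sq_nonneg (‖a‖ * r - 1)]
    have h2 : ‖a - b‖ * r ≤ 1 / 4 := by
      have : (‖a - b‖ * r) ^ 2 ≤ (1 / 4) ^ 2 := by
        refine ha1.trans ?_
        norm_num
      exact abs_le_of_sq_le_sq' this (by norm_num) |>.2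
    have h3 : ‖a‖ ≤ ‖a - b‖ + ‖b‖ := by
      have := norm_add_le (a - b) b
      simpa using this
    have h4 : 1 - 1 / 4 ≤ ‖b‖ * r := by nlinarith
    exact pow_le_pow_left₀ (by norm_num) h4 2
  refine ⟨k, by omega, Q13.clean h, Q13.clean_mem hh, ?_⟩
  rw [Q13.nrm_clean, Q13.nrm_clean]
  refine lt_of_le_of_lt hb2 (lt_of_lt_of_le ?_ hb1)
  norm_num

end Pool.Agent.helper63.NU
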